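import Pool.Agent.H27.CAL.Stmts2

open scoped BigOperators ENNReal Topology
open Filter

namespace CAL

universe u v

theorem cal_abs (𝕜 : Type) [RCLike 𝕜]
    (hex : ∀ (X : Type u) [NormedAddCommGroup X] [NormedSpace 𝕜 X]
      (Z : Type v) [NormedAddCommGroup Z] [NormedSpace 𝕜 Z] [CompleteSpace Z], GAMEXStmt 𝕜 X Z)
    (hal : ∀ (X : Type u) [NormedAddCommGroup X] [NormedSpace 𝕜 X]
      (Z : Type v) [NormedAddCommGroup Z] [NormedSpace 𝕜 Z], GAMALStmt 𝕜 X Z)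
    (hno : ∀ (X : Type u) [NormedAddCommGroup X] [NormedSpace 𝕜 X] [CompleteSpace X]
      (Z : Type v) [NormedAddCommGroup Z] [NormedSpace 𝕜 Z], GAMNOStmt 𝕜 X Z) :
    ABSStmt.{u, v} 𝕜 := by
  intro X _ _ _ Z _ _ _ S c0 hS
  have hex' := hex X Z S c0 hS
  obtain ⟨h1, h0, hadd, hsmul, hmul, huniq⟩ := hal X Z S c0 hS
  obtain ⟨C, hsurj, hcomp, hker, hnorm, hdist⟩ := hno X Z S c0 hS
  choose c V hG hV using hex'
  have hc : ∀ T c' V', Gam S T c' V' → c T = c' := fun T c' V' h => (huniq T _ _ _ _ (hG T) h).1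
  have hV' : ∀ T c' V', Gam S T c' V' → V T = V' := fun T c' V' h => (huniq T _ _ _ _ (hG T) h).2
  let ψ : (X →L[𝕜] X) →ₗ[𝕜] Unitization 𝕜 (compOp 𝕜 Z) :=
    { toFun := fun T => Unitization.mk (c T, ⟨V T, hV T⟩)
      map_add' := fun T T' => by
        have h := hadd T T' _ _ _ _ (hG T) (hG T')
        refine Unitization.ext (hc _ _ _ h) (Subtype.ext (hV' _ _ _ h))
      map_smul' := fun r T => by
        have h := hsmul T _ _ r (hG T)
        refine Unitization.ext (hc _ _ _ h) (Subtype.ext (hV' _ _ _ h)) }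
  have hψ1 : ψ 1 = 1 := Unitization.ext (hc _ _ _ h1) (Subtype.ext (hV' _ _ _ h1))
  have hψm : ∀ T T', ψ (T * T') = ψ T * ψ T' := by
    intro T T'
    have h := hmul T T' _ _ _ _ (hG T) (hG T')
    refine Unitization.ext (hc _ _ _ h) (Subtype.ext (hV' _ _ _ h))
  let Ψ : (X →L[𝕜] X) →ₐ[𝕜] Unitization 𝕜 (compOp 𝕜 Z) := AlgHom.ofLinearMap ψ hψ1 hψm
  have hΨ1 : ∀ T, (Ψ T).fst = c T := fun T => rfl
  have hΨ2 : ∀ T, ((Ψ T).snd : Z →L[𝕜] Z) = V T := fun T => rfl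
  refine ⟨Ψ, C, ?_, ?_, ?_, ?_⟩
  · intro y
    obtain ⟨T, hT⟩ := hsurj y.fst (y.snd : Z →L[𝕜] Z) y.snd.2
    refine ⟨T, Unitization.ext (hc _ _ _ hT) (Subtype.ext (hV' _ _ _ hT))⟩
  · intro T
    constructor
    · intro h
      apply hker
      have e1 : c T = 0 := by rw [← hΨ1, h]; rfl
      have e2 : V T = 0 := by rw [← hΨ2, h]; rfl
      have := hG T
      rwa [e1, e2] at this
    · intro h
      have := hcomp T h
      exact Unitization.ext (hc _ _ _ this) (Subtype.ext (hV' _ _ _ this))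
  · intro T
    rw [hΨ1, hΨ2]
    exact hnorm T _ _ (hG T)
  · intro T
    rw [hΨ1, hΨ2]
    exact hdist T _ _ (hG T)

end CAL
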