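import Pool.Agent.H27.CAL.Stmts2

open scoped BigOperators ENNReal Topology
open Filter

namespace CAL

universe u1 u2 u3

section
variable {𝕜 : Type u1} [RCLike 𝕜] {A : Type u2} [PartialOrder A] {Y : Type u3}
  [NormedAddCommGroup Y] [NormedSpace 𝕜 Y] {τ : TreeLev A}

theorem dcb_re_mi (j : ℕ) (c : 𝕜) : RCLike.re (mi 𝕜 j * c) = (mm j)⁻¹ * RCLike.re c := by
  unfold mi
  rw [RCLike.re_ofReal_mul]

theorem dcb_ev_single (D : Dat 𝕜 Y τ) (γ : ℕ) (x : D.X) :
    D.evX (Finsupp.single γ 1, 0) x = D.co γ x := by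
  rw [D.evX_apply, ev_single]; rfl

/-- the properties of a state (y, t, η, ξ) -/
structure DcbInv (D : Dat 𝕜 Y τ) {Ch : Finset ℕ → Prop} {F : FamSys Ch} {w : Wts}
    (R : Rich D F w) (T : D.X →L[𝕜] D.X) (C δ e : ℝ) (j0 : ℕ) (a : D.X × ℕ × ℕ × ℕ) : Prop where
  ex : D.Exact w.O R.th C ((mm j0)⁻¹) (D.wt a.2.2.1) ((D.pred a.2.2.2).elim 0 D.lev) a.2.1 a.1
    a.2.2.1
  wt : D.wt a.2.2.2 = j0
  lv : D.lev a.2.2.1 < D.lev a.2.2.2
  th : R.th a.2.2.2 = a.2.2.1
  val : ∀ γ, D.Anc a.2.2.2 γ → (mm j0)⁻¹ * δ - e ≤ RCLike.re (D.co γ (T a.1))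

theorem dcb_exact_mono (D : Dat 𝕜 Y τ) {O : Set ℕ} {th : ℕ → ℕ} {C e e' : ℝ} {j p0 t : ℕ} {y : D.X}
    {η : ℕ} (h : D.Exact O th C e j p0 t y η) (he : e ≤ e') : D.Exact O th C e' j p0 t y η :=
  ⟨h.ran, h.pt, h.lt, h.wt, h.nm, h.sm, h.z.trans he, h.dep⟩

/-- the value at the coordinates above ξ -/
theorem dcb_val (D : Dat 𝕜 Y τ) (heval : EVALStmt D) (htail : TAILStmt D)
    {Ch : Finset ℕ → Prop} {F : FamSys Ch} {w : Wts} (R : Rich D F w) (δ e' : ℝ) (he' : 0 ≤ e')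
    (u : D.X) (η ξ : ℕ) (hO : D.wt ξ ∈ w.O) (hth : R.th ξ = η)
    (hp : ‖D.PX ((D.pred ξ).elim 0 D.lev) u‖ ≤ e') (hu : δ ≤ RCLike.re (D.co η u))
    (hN : ∀ m, D.lev ξ - 1 ≤ m → ‖u - D.PX m u‖ ≤ e') (γ : ℕ) (hγ : D.Anc ξ γ) :
    (mm (D.wt ξ))⁻¹ * δ - 4 * e' ≤ RCLike.re (D.co γ u) := by
  have hm1 := mm_inv_le (D.wt ξ)
  have hm0 := mm_inv_pos (D.wt ξ)
  have hb : ∀ v, D.evX (D.b ξ) v = D.co η v := by
    intro v
    rw [R.odd_b ξ hO, hth, dcb_ev_single]
  -- value at ξ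
  have h1 : (mm (D.wt ξ))⁻¹ * δ - 3 * e' ≤ RCLike.re (D.co ξ u) := by
    have hds : -e' ≤ RCLike.re (D.ds ξ u) := by
      have h := (RCLike.abs_re_le_norm (D.ds ξ u)).trans ((heval.2.2 ξ u).trans (hN _ le_rfl))
      exact (abs_le.1 h).1
    have hmu : (mm (D.wt ξ))⁻¹ * δ ≤ (mm (D.wt ξ))⁻¹ * RCLike.re (D.co η u) :=
      mul_le_mul_of_nonneg_left hu hm0.le
    rcases hpr : D.pred ξ with _ | ζ
    · rw [heval.1 ξ u hpr, hb, map_add, dcb_re_mi]
      linarith
    · rw [hpr] at hp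
      simp only [Option.elim_some] at hp
      rw [heval.2.1 ξ ζ u hpr, hb, hb, map_add, map_add, dcb_re_mi, map_sub]
      have h2 : -e' ≤ RCLike.re (D.co ζ u) := by
        have h3 : D.co ζ (D.PX (D.lev ζ) u) = D.co ζ u := D.co_PX_le u le_rfl
        rw [← h3]
        have h := (RCLike.abs_re_le_norm (D.co ζ (D.PX (D.lev ζ) u))).trans
          ((D.norm_co_le _ _).trans hp)
        exact (abs_le.1 h).1
      have h4 : RCLike.re (D.co η (D.PX (D.lev ζ) u)) ≤ e' :=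
        (RCLike.re_le_norm _).trans ((D.norm_co_le _ _).trans hp)
      have h5 : (mm (D.wt ξ))⁻¹ * RCLike.re (D.co η (D.PX (D.lev ζ) u)) ≤ e' := by
        calc (mm (D.wt ξ))⁻¹ * RCLike.re (D.co η (D.PX (D.lev ζ) u)) ≤ (mm (D.wt ξ))⁻¹ * e' :=
              mul_le_mul_of_nonneg_left h4 hm0.le
          _ ≤ 1 * e' := mul_le_mul_of_nonneg_right (by linarith) he'
          _ = e' := one_mul _
      rw [mul_sub]
      linarith
  -- tail
  have h2 : D.co γ u = D.co ξ u + D.co γ (u - D.PX (D.lev ξ) u) := by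
    rw [map_sub, htail ξ γ u hγ]; ring
  have h3 : -e' ≤ RCLike.re (D.co γ (u - D.PX (D.lev ξ) u)) := by
    have h := (RCLike.abs_re_le_norm (D.co γ (u - D.PX (D.lev ξ) u))).trans
      ((D.norm_co_le _ _).trans (hN (D.lev ξ) (by omega)))
    exact (abs_le.1 h).1
  rw [h2, map_add]
  linarith

theorem cal_dcb (D : Dat 𝕜 Y τ) (heval : EVALStmt D) (htail : TAILStmt D)
    (hrun : RUNStmt.{max u1 u2 u3}) (hanc : ANCStmt D) : DCBStmt D := by
  intro Ch F w R T C δ hex j0 hj0 e he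
  obtain ⟨e', he', he1, he2⟩ : ∃ e' : ℝ, 0 < e' ∧ e' ≤ e / 4 ∧ e' ≤ (mm j0)⁻¹ :=
    ⟨min (e / 4) ((mm j0)⁻¹), lt_min (by positivity) (mm_inv_pos j0), min_le_left _ _,
      min_le_right _ _⟩
  -- large levels
  have hlarge : ∀ (y : D.X) (M : ℕ), ∃ n, M < n ∧ ∀ m, n - 1 ≤ m → ‖T y - D.PX m (T y)‖ ≤ e' := by
    intro y M
    obtain ⟨N, hN⟩ := (Metric.tendsto_atTop.1 (D.tendsto_PX (T y))) e' he'
    refine ⟨max N M + 1, by have := le_max_right N M; omega, fun m hm => ?_⟩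
    have h := hN m (by have := le_max_left N M; omega)
    rw [dist_eq_norm, ← norm_neg, neg_sub] at h
    exact h.le
  obtain ⟨n, a, l, hn, hA, hInv, hR, hpos, -, hG⟩ := hrun F j0 (D.X × ℕ × ℕ × ℕ)
    (fun a => D.Lv a.2.2.2) (fun a => D.lev a.2.2.2) (fun a => D.pred a.2.2.2 = none)
    (DcbInv D R T C δ e j0) (fun a a' => D.pred a'.2.2.2 = some a.2.2.2)
    (by
      intro hF
      obtain ⟨j, hjE, hj⟩ := w.inf1.exists_gt j0
      obtain ⟨y, t', η, hE, hP, hre⟩ := hex j (Or.inl hjE) 0 e' he'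
      obtain ⟨n, hn, hN⟩ := hlarge y (max (D.lev η) j0)
      obtain ⟨ξ, h1, h2, h3, h4⟩ := R.odd_rich j0 hj0 η n none
        ((le_max_left _ _).trans_lt hn) ((le_max_right _ _).trans hn.le)
        (fun _ => ⟨hF n, by rw [hE.wt]; exact hjE, by rw [hE.wt]; exact hj⟩)
        (fun ζ hζ => by cases hζ)
      refine ⟨(y, t', η, ξ), h3, ⟨?_, h2, ?_, h4, ?_⟩, ?_⟩
      · simp only [h3, Option.elim_none]
        rw [hE.wt]
        exact dcb_exact_mono D hE he2
      · show D.lev η < D.lev ξ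
        rw [h1]
        exact (le_max_left _ _).trans_lt hn
      · intro γ hγ
        have := dcb_val D heval htail R δ e' he'.le (T y) η ξ (by rw [h2]; exact hj0) h4
          (by rw [h3]; exact hP) hre (by rw [h1]; exact hN) γ hγ
        rw [h2] at this
        show _ ≤ RCLike.re (D.co γ (T y))
        linarith
      · exact D.Lv_none ξ h3)
    (by
      rintro ⟨y0, t0, η0, ξ0⟩ hI hF
      obtain ⟨y, t', η, hE, hP, hre⟩ := hex (R.sg ξ0) (Or.inr (R.sg_mem ξ0)) (D.lev ξ0) e' he'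
      obtain ⟨n, hn, hN⟩ := hlarge y (max (max (D.lev η) j0) (D.lev ξ0))
      have hn1 : D.lev η < n := ((le_max_left _ _).trans (le_max_left _ _)).trans_lt hn
      have hn2 : j0 < n := ((le_max_right _ _).trans (le_max_left _ _)).trans_lt hn
      have hn3 : D.lev ξ0 < n := (le_max_right _ _).trans_lt hn
      have hn4 : ∀ h ∈ D.Lv ξ0, h < n := by
        intro h hh
        obtain ⟨ζ, hζ, hζl⟩ := hanc.2.1 ξ0 h hh
        have := (hanc.1 ζ ξ0 hζ).1
        omega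
      have hIwt : D.wt ξ0 = j0 := hI.wt
      obtain ⟨ξ, h1, h2, h3, h4⟩ := R.odd_rich j0 hj0 η n (some ξ0) hn1 hn2.le
        (fun h => by cases h)
        (fun ζ hζ => by
          cases hζ
          exact ⟨hIwt, hn3, hF n hn4, hE.wt⟩)
      refine ⟨(y, t', η, ξ), ⟨?_, h2, ?_, h4, ?_⟩, h3, ?_, ?_⟩
      · simp only [h3, Option.elim_some]
        rw [hE.wt]
        exact dcb_exact_mono D hE he2
      · show D.lev η < D.lev ξ
        rw [h1]
        exact hn1
      · intro γ hγ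
        have := dcb_val D heval htail R δ e' he'.le (T y) η ξ (by rw [h2]; exact hj0) h4
          (by rw [h3]; exact hP) hre (by rw [h1]; exact hN) γ hγ
        rw [h2] at this
        show _ ≤ RCLike.re (D.co γ (T y))
        linarith
      · intro h hh
        show h < D.lev ξ
        rw [h1]
        exact hn4 h hh
      · exact D.Lv_some ξ ξ0 h3)
  refine ⟨n, fun r => (a r).1, fun r => (a r).2.1, fun r => (a r).2.2.1, fun r => (a r).2.2.2, l,
    hn, ⟨?_, ?_, ?_, ?_, ?_, ?_⟩, hG, ?_⟩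
  · intro r hr
    have h := (hInv r hr).ex
    rcases Nat.eq_zero_or_pos r with h0 | h0
    · subst h0
      rw [hA] at h
      simpa using h
    · have h1 := hR (r - 1) (by omega)
      rw [Nat.sub_add_cancel h0] at h1
      rw [h1] at h
      rw [if_neg (by omega)]
      exact h
  · intro r hr
    exact (hInv r hr).wt
  · intro r hr
    exact (hInv r hr).lv
  · intro r hr
    exact (hInv r hr).th
  · exact hA
  · intro r hr
    exact hR r hr
  · intro r hr
    refine (hInv r hr).val _ ?_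
    have key : ∀ i, r + i < n → D.Anc (a r).2.2.2 (a (r + i)).2.2.2 := by
      intro i
      induction i with
      | zero => intro _; exact Dat.Anc.refl _
      | succ i ih =>
        intro hi
        exact Dat.Anc.step (hR (r + i) (by omega)) (ih (by omega))
    have := key (n - 1 - r) (by omega)
    rwa [show r + (n - 1 - r) = n - 1 by omega] at this

end

end CAL
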