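import Pool.Agent.H27.CAL.Stmts2

open scoped BigOperators ENNReal Topology
open Filter

namespace CAL

section
variable {𝕜 : Type*} [RCLike 𝕜] {A : Type*} [PartialOrder A] {Y : Type*} [NormedAddCommGroup Y]
  [NormedSpace 𝕜 Y] {τ : TreeLev A}

theorem exact_re_mi (j : ℕ) (c : 𝕜) : RCLike.re (mi 𝕜 j * c) = (mm j)⁻¹ * RCLike.re c := by
  unfold mi
  rw [RCLike.re_ofReal_mul]

theorem exact_norm_sum_le (n : ℕ) (l : ℕ → ℝ) (hl : ∀ r < n, 0 ≤ l r) (hs : ∑ r ∈ Finset.range n, l r = 1)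
    {Z : Type*} [NormedAddCommGroup Z] [NormedSpace 𝕜 Z] (v : ℕ → Z) (e : ℝ)
    (hv : ∀ r < n, ‖v r‖ ≤ e) : ‖∑ r ∈ Finset.range n, (l r : 𝕜) • v r‖ ≤ e := by
  calc ‖∑ r ∈ Finset.range n, (l r : 𝕜) • v r‖ ≤ ∑ r ∈ Finset.range n, ‖(l r : 𝕜) • v r‖ :=
        norm_sum_le _ _
    _ ≤ ∑ r ∈ Finset.range n, l r * e := by
        apply Finset.sum_le_sum
        intro r hr
        have hr' := Finset.mem_range.1 hr
        rw [norm_smul, RCLike.norm_ofReal, abs_of_nonneg (hl r hr')]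
        exact mul_le_mul_of_nonneg_left (hv r hr') (hl r hr')
    _ = e := by rw [← Finset.sum_mul, hs, one_mul]

theorem exact_re_sum_ge (n : ℕ) (l : ℕ → ℝ) (hl : ∀ r < n, 0 ≤ l r) (hs : ∑ r ∈ Finset.range n, l r = 1)
    (v : ℕ → 𝕜) (e : ℝ) (hv : ∀ r < n, e ≤ RCLike.re (v r)) :
    e ≤ RCLike.re (∑ r ∈ Finset.range n, (l r : 𝕜) * v r) := by
  rw [map_sum]
  calc e = ∑ r ∈ Finset.range n, l r * e := by rw [← Finset.sum_mul, hs, one_mul]
    _ ≤ ∑ r ∈ Finset.range n, RCLike.re ((l r : 𝕜) * v r) := by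
        apply Finset.sum_le_sum
        intro r hr
        have hr' := Finset.mem_range.1 hr
        rw [RCLike.re_ofReal_mul]
        exact mul_le_mul_of_nonneg_left (hv r hr') (hl r hr')

theorem cal_exact (D : Dat 𝕜 Y τ) (hcb : CBStmt D) (hrav : RAVStmt D) (hran : RANStmt D)
    (hsub : SUBStmt D) : EXACTStmt D := by
  intro Ch F w R T C x s t jj hx hPT f s' δ hδ hf hfs hs' hfx hfT j hj p0 e he
  obtain ⟨hr1, -, hr3, -⟩ := hran
  have hC : 0 ≤ C := (norm_nonneg _).trans (hx.nm 0)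
  have hmm := mm_pos j
  -- monotonicity
  have hsm : StrictMono s := strictMono_nat_of_lt_succ (fun k => (hx.st k).trans_le (hx.ts k))
  have htm : StrictMono t := strictMono_nat_of_lt_succ (fun k => (hx.ts k).trans_lt (hx.st (k + 1)))
  -- hypotheses of CB
  have hf2 : ∀ k v, f k (D.PX (min (s' k) (s k)) v) = 0 := by
    intro k v
    have h := hfs k (D.PX (min (s' k) (s k)) v)
    rwa [D.PX_PX, ← min_assoc, min_self] at h
  have hs2 : Tendsto (fun k => min (s' k) (s k)) atTop atTop :=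
    tendsto_atTop.2 (fun b => by
      filter_upwards [tendsto_atTop.1 hs' b, tendsto_atTop.1 hsm.tendsto_atTop b] with k h1 h2
      exact le_min h1 h2)
  have hz : ∀ γ, Tendsto (fun k => D.co γ (T (x k))) atTop (𝓝 0) := by
    intro γ
    have h := ((D.co γ).continuous.tendsto 0).comp (hPT (D.lev γ))
    rw [map_zero] at h
    refine h.congr (fun k => ?_)
    exact D.co_PX_le _ le_rfl
  have hz' : ∀ γ, Tendsto (fun k => D.co γ (x k)) atTop (𝓝 0) := by
    intro γ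
    apply tendsto_const_nhds.congr'
    filter_upwards [tendsto_atTop.1 hsm.tendsto_atTop (D.lev γ)] with k h1
    exact (hr1 _ _ _ (hx.ran k) γ h1).symm
  -- K0
  obtain ⟨K1, hK1⟩ := (Metric.tendsto_atTop.1 (hPT p0)) (e / mm j) (by positivity)
  have hjj : Tendsto jj atTop atTop := hx.jm.tendsto_atTop
  obtain ⟨K2, hK2⟩ := (tendsto_atTop_atTop.1 hjj) (j + 1)
  obtain ⟨n, κ, p, η, l, hκ, hp, hK, hp0, htp, hps, hG, hwη, hpη, hval⟩ :=
    hcb F w R j hj (fun k => T (x k)) x f (fun k => min (s' k) (s k)) (fun k => t k + 1)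
      hf hf2 hs2 hz hz' (min e (δ / 8) / mm j) (by positivity) (max K1 K2) p0
  have hxκ := hsub.1 C x s t jj κ hx hκ
  obtain ⟨hn, hl1, hran', hnm, -, hsmall, hdep⟩ := hrav F w R C (x ∘ κ) (s ∘ κ) (t ∘ κ) (jj ∘ κ) j n p l
    hxκ (by
      have := hK2 (κ 0) ((le_max_right _ _).trans hK)
      show j < jj (κ 0)
      omega) hp (fun r hr => by
      have := htp r hr
      show t (κ r) ≤ p r
      omega) (fun r hr => by
      have := hps r hr
      show p r ≤ s (κ (r + 1))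
      exact this.trans (min_le_right _ _)) hG
  set v : D.X := ∑ r ∈ Finset.range n, (l (p r) : 𝕜) • (x ∘ κ) r with hv
  have hl0 : ∀ r < n, 0 ≤ l (p r) := fun r _ => hG.1 _
  have hmc : ‖((mm j : ℝ) : 𝕜)‖ = mm j := by
    rw [RCLike.norm_ofReal, abs_of_pos hmm]
  have hnmul : ∀ (c : 𝕜), ‖((mm j : ℝ) : 𝕜) * c‖ = mm j * ‖c‖ := fun c => by rw [norm_mul, hmc]
  have hκn : ∀ r, K1 ≤ κ r := fun r =>
    ((le_max_left _ _).trans hK).trans (hκ.monotone (Nat.zero_le r))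
  refine ⟨((mm j : ℝ) : 𝕜) • v, t (κ (n - 1)), η, ⟨?_, ?_, ?_, ?_, ?_, ?_, ?_, ?_⟩, ?_, ?_⟩
  · -- ran
    have h1 : D.InRan p0 (t (κ (n - 1))) v := by
      refine hr3 _ _ _ _ _ ?_ le_rfl hran'
      exact hp0.trans (min_le_right _ _)
    refine ⟨?_, ?_⟩
    · rw [map_smul, h1.1, smul_zero]
    · rw [map_smul, h1.2]
  · have h1 : p0 ≤ s (κ 0) := hp0.trans (min_le_right _ _)
    have h2 := hx.st (κ 0)
    have h3 : t (κ 0) ≤ t (κ (n - 1)) := htm.monotone (hκ.monotone (Nat.zero_le _))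
    omega
  · have h1 := htp (n - 1) (by omega)
    have h2 := hpη (n - 1) (by omega)
    omega
  · exact hwη
  · rw [norm_smul, hmc]
    calc mm j * ‖v‖ ≤ mm j * (2 * C * (mm j)⁻¹) := mul_le_mul_of_nonneg_left hnm hmm.le
      _ = 2 * C := by field_simp
      _ ≤ 4 * C := by linarith
  · intro γ hγ
    rw [map_smul, smul_eq_mul, hnmul]
    calc mm j * ‖D.co γ v‖ ≤ mm j * (2 * C * (mm j)⁻¹ * (mm (D.wt γ))⁻¹) :=
          mul_le_mul_of_nonneg_left (hsmall γ hγ) hmm.le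
      _ = 2 * C * (mm (D.wt γ))⁻¹ := by field_simp
      _ ≤ 4 * C * (mm (D.wt γ))⁻¹ :=
          mul_le_mul_of_nonneg_right (by linarith) (mm_inv_pos _).le
  · -- value at η
    rw [map_smul, smul_eq_mul, hnmul]
    have h1 : ‖D.co η v‖ ≤ min e (δ / 8) / mm j := by
      rw [hv, map_sum]
      simp only [map_smul]
      refine exact_norm_sum_le n (fun r => l (p r)) hl0 hl1 (fun r => D.co η ((x ∘ κ) r)) _ ?_
      intro r hr
      have h2 := (hval r hr).2
      rw [hfx, mul_zero, sub_zero] at h2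
      exact h2
    calc mm j * ‖D.co η v‖ ≤ mm j * (min e (δ / 8) / mm j) := mul_le_mul_of_nonneg_left h1 hmm.le
      _ = min e (δ / 8) := by field_simp
      _ ≤ e := min_le_left _ _
  · intro γ hγO hγ hζ
    rw [map_smul, smul_eq_mul, hnmul]
    have h2 : (0 : ℝ) ≤ ((mm (D.wt γ))⁻¹) ^ 2 := by positivity
    calc mm j * ‖D.co γ v‖ ≤ mm j * (3 * C * (mm j)⁻¹ * (mm (D.wt γ))⁻¹ ^ 2) :=
          mul_le_mul_of_nonneg_left (hdep γ hγO hγ hζ) hmm.le
      _ = 3 * C * (mm (D.wt γ))⁻¹ ^ 2 := by field_simp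
      _ ≤ 4 * C * (mm (D.wt γ))⁻¹ ^ 2 :=
          mul_le_mul_of_nonneg_right (by linarith) h2
  · rw [map_smul, map_smul, norm_smul, hmc]
    have h1 : ‖D.PX p0 (T v)‖ ≤ e / mm j := by
      rw [hv, map_sum, map_sum]
      simp only [map_smul]
      refine exact_norm_sum_le n (fun r => l (p r)) hl0 hl1
        (fun r => D.PX p0 (T ((x ∘ κ) r))) _ ?_
      intro r _
      have h2 := hK1 (κ r) (hκn r)
      rw [dist_zero_right] at h2
      exact h2.le
    calc mm j * ‖D.PX p0 (T v)‖ ≤ mm j * (e / mm j) := mul_le_mul_of_nonneg_left h1 hmm.le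
      _ = e := by field_simp
  · rw [map_smul, map_smul, smul_eq_mul, RCLike.re_ofReal_mul]
    have h1 : 2⁻¹ * ((mm j)⁻¹ * δ) - min e (δ / 8) / mm j ≤ RCLike.re (D.co η (T v)) := by
      rw [hv, map_sum, map_sum]
      simp only [map_smul, smul_eq_mul]
      refine exact_re_sum_ge n (fun r => l (p r)) hl0 hl1 (fun r => D.co η (T ((x ∘ κ) r))) _ ?_
      intro r hr
      have h2 := (hval r hr).1
      have h3 := (RCLike.abs_re_le_norm _).trans h2
      have h4 := (abs_le.1 h3).1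
      rw [map_sub] at h4
      have h5 : RCLike.re ((2 : 𝕜)⁻¹ * mi 𝕜 j * (f (κ r) (T (x (κ r))))) =
          2⁻¹ * ((mm j)⁻¹ * RCLike.re (f (κ r) (T (x (κ r))))) := by
        have h6 : ((2 : 𝕜)⁻¹ * mi 𝕜 j * (f (κ r) (T (x (κ r))))) =
            (((2⁻¹ : ℝ) : 𝕜)) * (mi 𝕜 j * (f (κ r) (T (x (κ r))))) := by
          push_cast
          ring
        rw [h6, RCLike.re_ofReal_mul, exact_re_mi]
      rw [h5] at h4
      have h7 := hfT (κ r)
      have h8 : (mm j)⁻¹ * δ ≤ (mm j)⁻¹ * RCLike.re (f (κ r) (T (x (κ r)))) :=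
        mul_le_mul_of_nonneg_left h7 (mm_inv_pos j).le
      show _ ≤ RCLike.re (D.co η (T (x (κ r))))
      linarith
    calc δ / 4 ≤ 2⁻¹ * δ - min e (δ / 8) := by
          have := min_le_right e (δ / 8)
          linarith
      _ = mm j * (2⁻¹ * ((mm j)⁻¹ * δ) - min e (δ / 8) / mm j) := by field_simp
      _ ≤ mm j * RCLike.re (D.co η (T v)) := mul_le_mul_of_nonneg_left h1 hmm.le

end

end CAL
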