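import Pool.Agent.H27.CAL.Stmts2

open scoped BigOperators ENNReal Topology
open Filter

namespace CAL

section
variable {𝕜 : Type*} [RCLike 𝕜] {A : Type*} [PartialOrder A] {Y : Type*} [NormedAddCommGroup Y]
  [NormedSpace 𝕜 Y] {τ : TreeLev A}

theorem split_Pc_zero (D : Dat 𝕜 Y τ) (s : ℕ) (z : BB 𝕜 A Y)
    (h1 : ∀ a, τ.lev a ≤ s → (toPt z).1 a = 0) (h2 : ∀ γ, D.lev γ ≤ s → (toPt z).2 γ = 0) :
    D.Pc s z = 0 := by
  apply toPt_inj
  rw [D.toPt_Pc]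
  have h3 : D.P s (toPt z) = D.P s 0 := D.P_congr (fun a ha => h1 a ha) (fun γ hγ => h2 γ hγ)
  have h4 : D.P s (0 : Pt 𝕜 A Y) = 0 := by
    have := D.P_smul s (0 : 𝕜) 0
    simpa using this
  rw [h3, h4]
  rfl

theorem cal_split (D : Dat 𝕜 Y τ) (hran : RANStmt D) (hloc : LOCSStmt D) : SPLITStmt D := by
  intro s t N x hst hx
  obtain ⟨hr1, hr2, -⟩ := hran
  have hnx := norm_nonneg x
  -- the germ with small weights
  let z : BB 𝕜 A Y := mkB (fun _ => 0, fun γ => if D.wt γ ≤ N then D.co γ x else 0) ‖x‖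
    (fun a => by simp) (fun γ => by
      show ‖(if D.wt γ ≤ N then D.co γ x else 0 : 𝕜)‖ ≤ ‖x‖
      split_ifs
      · exact D.norm_co_le γ x
      · simp)
  have hz1 : ∀ a, (toPt z).1 a = 0 := fun a => rfl
  have hz2 : ∀ γ, (toPt z).2 γ = if D.wt γ ≤ N then D.co γ x else 0 := fun γ => rfl
  have hzn : ‖z‖ ≤ ‖x‖ := by
    refine norm_BB_le hnx (fun a => ?_) (fun γ => ?_)
    · rw [hz1]; simp
    · rw [hz2]
      split_ifs
      · exact D.norm_co_le γ x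
      · simp
  have hz'2 : ∀ γ, (toPt ((x : BB 𝕜 A Y) - z)).2 γ = if D.wt γ ≤ N then 0 else D.co γ x := by
    intro γ
    show (toPt (x : BB 𝕜 A Y)).2 γ - (toPt z).2 γ = _
    rw [hz2]
    split_ifs
    · exact sub_self _
    · rw [sub_zero]; rfl
  have hz'1 : ∀ a, (toPt ((x : BB 𝕜 A Y) - z)).1 a = D.nd a x := by
    intro a
    show (toPt (x : BB 𝕜 A Y)).1 a - (toPt z).1 a = _
    rw [hz1, sub_zero]; rfl
  have hz'n : ‖(x : BB 𝕜 A Y) - z‖ ≤ ‖x‖ := by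
    refine norm_BB_le hnx (fun a => ?_) (fun γ => ?_)
    · rw [hz'1]; exact D.norm_nd_le a x
    · rw [hz'2]
      split_ifs
      · simp
      · exact D.norm_co_le γ x
  have hsum : x = D.EX t z + D.EX t ((x : BB 𝕜 A Y) - z) := by
    rw [← map_add, add_sub_cancel]
    exact hx.2.symm
  have hPP : ∀ p, D.PX p (D.EX t z) = D.EX (min p t) z := by
    intro p
    apply Subtype.ext
    rw [D.coe_PX, D.coe_EX, D.coe_EX, D.Pc_Pc]
  have hu0 : D.PX s (D.EX t z) = 0 := by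
    rw [hPP, min_eq_left hst]
    apply Subtype.ext
    rw [D.coe_EX]
    refine split_Pc_zero D s z (fun a _ => hz1 a) (fun γ hγ => ?_)
    rw [hz2, hr1 s t x hx γ hγ]
    simp
  have hu1 : D.PX t (D.EX t z) = D.EX t z := by
    rw [hPP, min_self]
  have hv : D.EX t ((x : BB 𝕜 A Y) - z) = x - D.EX t z := by
    rw [eq_sub_iff_add_eq, add_comm]
    exact hsum.symm
  refine ⟨D.EX t z, D.EX t ((x : BB 𝕜 A Y) - z), hsum, ⟨hu0, hu1⟩, ⟨?_, ?_⟩, ?_, ?_, ?_, ?_⟩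
  · rw [hv, map_sub, hx.1, hu0, sub_zero]
  · rw [hv, map_sub, hx.2, hu1]
  · exact (D.norm_EX_le t z).trans (by linarith)
  · exact (D.norm_EX_le t _).trans (by linarith)
  · intro γ
    have hN := four_le_mm N
    by_cases hγ : D.wt γ ≤ N
    · have h1 := mm_mono hγ
      have h2 := mm_inv_pos (D.wt γ)
      have h3 : 1 ≤ mm N * (mm (D.wt γ))⁻¹ := by
        rw [← div_eq_mul_inv, one_le_div (mm_pos _)]
        exact h1
      calc ‖D.co γ (D.EX t z)‖ ≤ ‖D.EX t z‖ := D.norm_co_le _ _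
        _ ≤ 2 * ‖x‖ := (D.norm_EX_le t z).trans (by linarith)
        _ ≤ 6 * ‖x‖ * 1 := by linarith
        _ ≤ 6 * ‖x‖ * (mm N * (mm (D.wt γ))⁻¹) := mul_le_mul_of_nonneg_left h3 (by positivity)
        _ = 6 * ‖x‖ * mm N * (mm (D.wt γ))⁻¹ := by ring
    · have h1 := hloc z t (D.wt γ) (fun β _ hβ => by rw [hz2, if_neg (by rw [hβ]; exact hγ)]) γ rfl
      have h2 := mm_inv_pos (D.wt γ)
      calc ‖D.co γ (D.EX t z)‖ ≤ 6 * ‖z‖ * (mm (D.wt γ))⁻¹ := h1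
        _ ≤ 6 * ‖x‖ * mm N * (mm (D.wt γ))⁻¹ := by
          apply mul_le_mul_of_nonneg_right _ h2.le
          nlinarith
  · intro γ hγ
    have h1 := hloc ((x : BB 𝕜 A Y) - z) t (D.wt γ)
      (fun β _ hβ => by rw [hz'2, if_pos (by rw [hβ]; exact hγ)]) γ rfl
    have h2 := mm_inv_pos (D.wt γ)
    calc ‖D.co γ (D.EX t ((x : BB 𝕜 A Y) - z))‖ ≤ 6 * ‖(x : BB 𝕜 A Y) - z‖ * (mm (D.wt γ))⁻¹ := h1
      _ ≤ 6 * ‖x‖ * (mm (D.wt γ))⁻¹ := by
        apply mul_le_mul_of_nonneg_right _ h2.le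
        linarith

end

end CAL
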